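import Pool.Agent.W574.ML.Sq

/-!
The choice of the parameters.
-/

set_option autoImplicit false
set_option linter.unusedSectionVars false
set_option linter.unusedVariables false

namespace Pool.Agent.W574.ML

open Finset

/-- the threshold -/
noncomputable def thr (N : ℕ) : ℝ :=
  Real.logb (3 / 2) N + 4 * Real.logb 2 N + 9 * Real.log (Real.log N)

lemma log_g (J t : ℕ) : Real.log (g J (J + t)) =
    J * Real.log (3 / 2) + t * (Real.log 2 / 2) := by
  have h2 : (0 : ℝ) < Real.sqrt 2 := by positivity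
  rw [g_high, Real.log_mul (by positivity) (by positivity), Real.log_pow, Real.log_pow,
    Real.log_sqrt (by norm_num)]

lemma g_two_le (J : ℕ) : g J 2 ≤ 9 / 4 := by
  have h0 : g J 0 = 1 := by
    unfold g
    simp
  have h1 := g_one J 0
  have h2 := g_one J 1
  norm_num at h1 h2
  rw [h0] at h1
  linarith

lemma final_ineq (N : ℕ) (hL : 2000 ≤ Real.log N) : ∃ q0 J : ℕ, 2 ≤ q0 ∧
    (∀ q : ℕ, thr N ≤ (q : ℝ) ^ 2 → q0 ≤ q) ∧
    (N : ℝ) ^ 3 * g J 2 + (N : ℝ) ^ 2 * ((q0 : ℝ) ^ 4 * ((3 / 2) ^ J / 4)) < g J (q0 ^ 2) := by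
  set L := Real.log N with hLdef
  set a := Real.log (3 / 2) with ha
  set b := Real.log 2 with hb
  have ha1 : 1 / 3 ≤ a := by
    have := Real.one_sub_inv_le_log_of_pos (show (0 : ℝ) < 3 / 2 by norm_num)
    norm_num at this
    rw [ha]
    linarith
  have ha2 : a ≤ 1 / 2 := by
    have := Real.log_le_sub_one_of_pos (show (0 : ℝ) < 3 / 2 by norm_num)
    rw [ha]
    linarith
  have hb1 : 0.69 < b := by
    have := Real.log_two_gt_d9
    rw [hb]
    linarith
  have hb2 : b < 0.7 := by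
    have := Real.log_two_lt_d9
    rw [hb]
    linarith
  have hab : b / 2 < a := by
    have h1 : Real.log (Real.sqrt 2) < Real.log (3 / 2) :=
      Real.log_lt_log (by positivity) sqrt2_lt
    rw [Real.log_sqrt (by norm_num)] at h1
    exact h1
  have hNpos : (0 : ℝ) < N := by
    rcases Nat.eq_zero_or_pos N with h | h
    · rw [hLdef, h] at hL
      simp at hL
      linarith
    · exact_mod_cast h
  have hexpL : Real.exp L = N := Real.exp_log hNpos
  set T := thr N with hT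
  have hTe : T = L / a + 4 * (L / b) + 9 * Real.log L := by
    rw [hT]
    unfold thr Real.logb
    rfl
  have hlogL0 : 0 ≤ Real.log L := Real.log_nonneg (by linarith)
  have hlogL1 : Real.log L ≤ L := by
    have := Real.log_le_sub_one_of_pos (show 0 < L by linarith)
    linarith
  have hLa : L / a ≤ 3 * L := by
    rw [div_le_iff₀ (by linarith)]
    nlinarith
  have hLa0 : 0 ≤ L / a := by
    apply div_nonneg <;> linarith
  have hLb : L / b ≤ 3 / 2 * L := by
    rw [div_le_iff₀ (by linarith)]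
    nlinarith
  have hLb0 : L ≤ L / b := by
    rw [le_div_iff₀ (by linarith)]
    nlinarith
  have hT1 : T ≤ 18 * L := by
    rw [hTe]
    linarith
  have hT0 : 4 * L ≤ T := by
    rw [hTe]
    linarith
  have hTpos : 0 ≤ T := by linarith
  refine ⟨⌈Real.sqrt T⌉₊, ⌊L / a⌋₊, ?_, ?_, ?_⟩
  · have h1 : (1 : ℝ) < Real.sqrt T := by
      rw [Real.lt_sqrt (by norm_num)]
      linarith
    have h2 : 1 < ⌈Real.sqrt T⌉₊ := by
      rw [Nat.lt_ceil]
      exact_mod_cast h1
    omega
  · intro q hq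
    apply Nat.ceil_le.2
    exact Real.sqrt_le_iff.2 ⟨by positivity, hq⟩
  · set q0 := ⌈Real.sqrt T⌉₊ with hq0
    set J := ⌊L / a⌋₊ with hJ
    have hq1 : Real.sqrt T ≤ q0 := Nat.le_ceil _
    have hq2 : (q0 : ℝ) < Real.sqrt T + 1 := Nat.ceil_lt_add_one (Real.sqrt_nonneg T)
    have hs := Real.sq_sqrt hTpos
    have hs0 := Real.sqrt_nonneg T
    have hqT : T ≤ (q0 : ℝ) ^ 2 := by
      calc T = Real.sqrt T ^ 2 := hs.symm
        _ ≤ (q0 : ℝ) ^ 2 := pow_le_pow_left₀ hs0 hq1 2
    have hqT2 : (q0 : ℝ) ^ 2 ≤ 37 * L := by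
      have h1 : (q0 : ℝ) ^ 2 ≤ (Real.sqrt T + 1) ^ 2 :=
        pow_le_pow_left₀ (by positivity) hq2.le 2
      nlinarith [sq_nonneg (Real.sqrt T - 1)]
    have hJ1 : (J : ℝ) ≤ L / a := Nat.floor_le hLa0
    have hJ2 : L / a < (J : ℝ) + 1 := Nat.lt_floor_add_one _
    have hJa : (J : ℝ) * a ≤ L := by
      rwa [le_div_iff₀ (by linarith)] at hJ1
    have hJa2 : L < ((J : ℝ) + 1) * a := by
      rwa [div_lt_iff₀ (by linarith)] at hJ2
    have hJq : J ≤ q0 ^ 2 := by
      have h1 : (J : ℝ) ≤ (q0 : ℝ) ^ 2 := by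
        rw [hTe] at hqT
        nlinarith
      exact_mod_cast h1
    obtain ⟨t, ht⟩ := Nat.exists_eq_add_of_le hJq
    have htr : (q0 : ℝ) ^ 2 = J + t := by exact_mod_cast ht
    have hgl : 3 * L + 3 * Real.log L - 1 ≤ Real.log (g J (q0 ^ 2)) := by
      rw [ht, log_g, ← ha, ← hb]
      have h1 : (t : ℝ) = (q0 : ℝ) ^ 2 - J := by linarith
      rw [h1]
      have h2 : T * (b / 2) ≤ (q0 : ℝ) ^ 2 * (b / 2) :=
        mul_le_mul_of_nonneg_right hqT (by linarith)
      have h3 : T * (b / 2) = L / a * (b / 2) + 2 * L + 9 * Real.log L * (b / 2) := by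
        rw [hTe]
        have : L / b * b = L := div_mul_cancel₀ _ (by linarith)
        linear_combination 2 * this
      have h4 : (L / a - 1) * (a - b / 2) ≤ (J : ℝ) * (a - b / 2) :=
        mul_le_mul_of_nonneg_right (by linarith) (by linarith)
      have h5 : (L / a - 1) * (a - b / 2) = L - L / a * (b / 2) - (a - b / 2) := by
        have : L / a * a = L := div_mul_cancel₀ _ (by linarith)
        linear_combination this
      have h6 : 3 * Real.log L ≤ 9 * Real.log L * (b / 2) := by nlinarith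
      have h7 : (J : ℝ) * a + ((q0 : ℝ) ^ 2 - J) * (b / 2) =
          (J : ℝ) * (a - b / 2) + (q0 : ℝ) ^ 2 * (b / 2) := by ring
      rw [h7]
      linarith
    have hgge : (N : ℝ) ^ 3 * (L ^ 3 / 3) ≤ g J (q0 ^ 2) := by
      have h1 : Real.exp (3 * L + 3 * Real.log L - 1) ≤ g J (q0 ^ 2) := by
        rw [← Real.exp_log (g_pos J (q0 ^ 2))]
        exact Real.exp_le_exp.2 hgl
      refine le_trans ?_ h1
      rw [Real.exp_sub, Real.exp_add]
      have e1 : Real.exp (3 * L) = (N : ℝ) ^ 3 := by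
        rw [← hexpL, ← Real.exp_nat_mul]
        norm_num
      have e2 : Real.exp (3 * Real.log L) = L ^ 3 := by
        have : Real.exp (Real.log L) = L := Real.exp_log (by linarith)
        rw [← this, ← Real.exp_nat_mul, this]
        norm_num
      rw [e1, e2, mul_div_assoc]
      apply mul_le_mul_of_nonneg_left _ (by positivity)
      apply div_le_div_of_nonneg_left (by positivity) (Real.exp_pos 1)
      have := Real.exp_one_lt_d9
      linarith
    have hJN : (3 / 2 : ℝ) ^ J ≤ N := by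
      rw [← hexpL, ← Real.log_le_iff_le_exp (by positivity), Real.log_pow]
      exact hJa
    have hN3 : (0 : ℝ) < (N : ℝ) ^ 3 := by positivity
    have hq4 : (q0 : ℝ) ^ 4 ≤ 1369 * L ^ 2 := by
      have h1 : (q0 : ℝ) ^ 4 = ((q0 : ℝ) ^ 2) ^ 2 := by ring
      rw [h1]
      calc ((q0 : ℝ) ^ 2) ^ 2 ≤ (37 * L) ^ 2 := pow_le_pow_left₀ (by positivity) hqT2 2
        _ = 1369 * L ^ 2 := by ring
    refine lt_of_lt_of_le ?_ hgge
    have h1 : (N : ℝ) ^ 3 * g J 2 ≤ (N : ℝ) ^ 3 * (9 / 4) :=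
      mul_le_mul_of_nonneg_left (g_two_le J) hN3.le
    have h2 : (N : ℝ) ^ 2 * ((q0 : ℝ) ^ 4 * ((3 / 2) ^ J / 4)) ≤
        (N : ℝ) ^ 2 * ((1369 * L ^ 2) * (N / 4)) := by
      apply mul_le_mul_of_nonneg_left _ (by positivity)
      apply mul_le_mul hq4 _ (by positivity) (by positivity)
      linarith
    have h3 : (N : ℝ) ^ 2 * ((1369 * L ^ 2) * (N / 4)) = (N : ℝ) ^ 3 * (1369 / 4 * L ^ 2) := by
      ring
    have h4 : 9 / 4 + 1369 / 4 * L ^ 2 < L ^ 3 / 3 := by
      have h5 : 0 ≤ L ^ 2 := sq_nonneg L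
      have h6 : 2000 * L ^ 2 ≤ L ^ 3 := by
        have : L ^ 3 = L * L ^ 2 := by ring
        rw [this]
        exact mul_le_mul_of_nonneg_right hL h5
      have h7 : (2000 : ℝ) ^ 2 ≤ L ^ 2 := pow_le_pow_left₀ (by norm_num) hL 2
      nlinarith
    have h8 := mul_lt_mul_of_pos_left h4 hN3
    rw [mul_add] at h8
    linarith

end Pool.Agent.W574.ML
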