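import Pool.Agent.W315.BGame

/-!
Breaker's potential strategy in the (2:1) game.
-/

set_option autoImplicit false
set_option linter.unusedSectionVars false
set_option linter.unusedVariables false

namespace Pool.Agent.W574.ML

open Finset
open Pool.Agent.W315

variable {β ι : Type*} [DecidableEq β] [DecidableEq ι]

/-- the potential: Maker's points `X`, Breaker's points `Y` -/
noncomputable def Phi (F : Finset ι) (S : ι → Finset β) (g : ℕ → ℝ) (X Y : Finset β) : ℝ :=
  ∑ i ∈ F.filter (fun i => Disjoint (S i) Y), g (S i ∩ X).card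

/-- the part of the potential through the point `z` -/
noncomputable def star (F : Finset ι) (S : ι → Finset β) (g : ℕ → ℝ) (X Y : Finset β) (z : β) : ℝ :=
  ∑ i ∈ (F.filter (fun i => Disjoint (S i) Y)).filter (fun i => z ∈ S i), g (S i ∩ X).card

theorem step (F : Finset ι) (S : ι → Finset β) (g : ℕ → ℝ) (e K : ℝ) (hg : ∀ j, 0 ≤ g j)
    (he : 0 ≤ e) (H1 : ∀ j, g (j + 1) ≤ 3 / 2 * g j) (H2 : ∀ j, g (j + 2) ≤ 2 * g j + e)
    (hK : 0 ≤ K)
    (hcod : ∀ x y : β, x ≠ y → ((F.filter (fun i => x ∈ S i ∧ y ∈ S i)).card : ℝ) ≤ K)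
    (X Y : Finset β) (b : β) (b' : Finset β) (hb' : b'.card ≤ 2) (hd : Disjoint b' X)
    (hmax : ∀ z ∈ b', star F S g X Y z ≤ star F S g X Y b) :
    Phi F S g (X ∪ b') (insert b Y) ≤ Phi F S g X Y + K * e := by
  classical
  set A := F.filter (fun i => Disjoint (S i) Y) with hA
  set A' := F.filter (fun i => Disjoint (S i) (insert b Y)) with hA'
  have hAA' : A' = A.filter (fun i => ¬ b ∈ S i) := by
    rw [hA, hA', Finset.filter_filter]
    apply Finset.filter_congr
    intro i _
    rw [Finset.disjoint_insert_right]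
    tauto
  have hsplit : Phi F S g X Y = star F S g X Y b + ∑ i ∈ A', g (S i ∩ X).card := by
    unfold Phi star
    rw [hAA', ← hA]
    exact (Finset.sum_filter_add_sum_filter_not A (fun i => b ∈ S i) _).symm
  have hc2 : ∀ i, (S i ∩ b').card ≤ 2 := fun i =>
    (Finset.card_le_card Finset.inter_subset_right).trans hb'
  have hterm : ∀ i ∈ A', g (S i ∩ (X ∪ b')).card ≤ g (S i ∩ X).card +
      1 / 2 * (((S i ∩ b').card : ℝ) * g (S i ∩ X).card) +
      (if (S i ∩ b').card = 2 then e else 0) := by
    intro i _
    have h1 : (S i ∩ (X ∪ b')).card = (S i ∩ X).card + (S i ∩ b').card := by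
      rw [Finset.inter_union_distrib_left, Finset.card_union_of_disjoint]
      exact (hd.symm.mono Finset.inter_subset_right Finset.inter_subset_right)
    rw [h1]
    have h2 := hc2 i
    generalize (S i ∩ b').card = c at h2 ⊢
    generalize (S i ∩ X).card = j
    have : c = 0 ∨ c = 1 ∨ c = 2 := by omega
    rcases this with rfl | rfl | rfl
    · simp
    · have := H1 j
      simp
      linarith
    · have := H2 j
      simp
      linarith
  have hsum : Phi F S g (X ∪ b') (insert b Y) ≤ ∑ i ∈ A', (g (S i ∩ X).card +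
      1 / 2 * (((S i ∩ b').card : ℝ) * g (S i ∩ X).card) +
      (if (S i ∩ b').card = 2 then e else 0)) := by
    unfold Phi
    rw [← hA']
    exact Finset.sum_le_sum hterm
  rw [Finset.sum_add_distrib, Finset.sum_add_distrib, ← Finset.mul_sum] at hsum
  have hmid : ∑ i ∈ A', (((S i ∩ b').card : ℝ) * g (S i ∩ X).card) ≤ 2 * star F S g X Y b := by
    have h1 : ∑ i ∈ A', (((S i ∩ b').card : ℝ) * g (S i ∩ X).card) =
        ∑ z ∈ b', ∑ i ∈ A'.filter (fun i => z ∈ S i), g (S i ∩ X).card := by
      have h2 : ∀ i ∈ A', (((S i ∩ b').card : ℝ) * g (S i ∩ X).card) =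
          ∑ z ∈ b', if z ∈ S i then g (S i ∩ X).card else 0 := by
        intro i _
        rw [← Finset.sum_filter, Finset.sum_const, nsmul_eq_mul]
        congr 2
        congr 1
        ext z
        simp [and_comm]
      rw [Finset.sum_congr rfl h2, Finset.sum_comm]
      apply Finset.sum_congr rfl
      intro z _
      exact (Finset.sum_filter _ _).symm
    rw [h1]
    have h3 : ∀ z ∈ b', ∑ i ∈ A'.filter (fun i => z ∈ S i), g (S i ∩ X).card ≤
        star F S g X Y b := by
      intro z hz
      refine le_trans ?_ (hmax z hz)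
      unfold star
      rw [← hA]
      apply Finset.sum_le_sum_of_subset_of_nonneg
      · apply Finset.filter_subset_filter
        rw [hAA']
        exact Finset.filter_subset _ _
      · intro i _ _
        exact hg _
    have hs0 : 0 ≤ star F S g X Y b := Finset.sum_nonneg (fun i _ => hg _)
    calc ∑ z ∈ b', ∑ i ∈ A'.filter (fun i => z ∈ S i), g (S i ∩ X).card ≤
        ∑ z ∈ b', star F S g X Y b := Finset.sum_le_sum h3
      _ = b'.card * star F S g X Y b := by rw [Finset.sum_const, nsmul_eq_mul]
      _ ≤ 2 * star F S g X Y b := by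
        apply mul_le_mul_of_nonneg_right _ hs0
        exact_mod_cast hb'
  have hlast : ∑ i ∈ A', (if (S i ∩ b').card = 2 then e else 0) ≤ K * e := by
    rw [← Finset.sum_filter, Finset.sum_const, nsmul_eq_mul]
    apply mul_le_mul_of_nonneg_right _ he
    by_cases hb2 : b'.card = 2
    · obtain ⟨x, y, hxy, hbe⟩ := Finset.card_eq_two.1 hb2
      refine le_trans ?_ (hcod x y hxy)
      have : (A'.filter (fun i => (S i ∩ b').card = 2)).card ≤
          (F.filter (fun i => x ∈ S i ∧ y ∈ S i)).card := by
        apply Finset.card_le_card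
        intro i hi
        rw [Finset.mem_filter] at hi ⊢
        refine ⟨(Finset.mem_filter.1 hi.1).1, ?_⟩
        have h4 : S i ∩ b' = b' := Finset.eq_of_subset_of_card_le Finset.inter_subset_right
          (by rw [hi.2, hb2])
        have h5 : b' ⊆ S i := Finset.inter_eq_right.1 h4
        rw [hbe] at h5
        exact ⟨h5 (by simp), h5 (by simp)⟩
      exact_mod_cast this
    · have : A'.filter (fun i => (S i ∩ b').card = 2) = ∅ := by
        apply Finset.filter_false_of_mem
        intro i _ h
        have := Finset.card_le_card (Finset.inter_subset_right (s₁ := S i) (s₂ := b'))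
        omega
      rw [this]
      simpa using hK
  rw [hsplit]
  linarith

/-- Breaker's strategy. -/
theorem breaker_win (E : Finset β) (F : Finset ι) (S : ι → Finset β) (g : ℕ → ℝ) (e K : ℝ)
    (hg : ∀ j, 0 ≤ g j) (hgm : Monotone g) (he : 0 ≤ e) (H1 : ∀ j, g (j + 1) ≤ 3 / 2 * g j)
    (H2 : ∀ j, g (j + 2) ≤ 2 * g j + e) (hK : 0 ≤ K)
    (hcod : ∀ x y : β, x ≠ y → ((F.filter (fun i => x ∈ S i ∧ y ∈ S i)).card : ℝ) ≤ K)
    (n : ℕ) (hn : ∀ i ∈ F, n ≤ (S i).card)
    (hbig : (F.card : ℝ) * g 2 + E.card * (K * e) < g n) :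
    ∃ σ : List (Finset β) → Finset β,
      (∀ h : List (Finset β), BGame.Legal E 2 1 h → BGame.Follows 1 σ h → h.length % 2 = 1 →
        (LatKK.free E h).Nonempty → BGame.IsMove E (BGame.bias 2 1 1) h (σ h)) ∧
      (∀ h : List (Finset β), BGame.Legal E 2 1 h → BGame.Follows 1 σ h → LatKK.free E h = ∅ →
        ∀ i ∈ F, ¬ S i ⊆ LatKK.own E 0 h) := by
  classical
  have hb1 : BGame.bias 2 1 1 = 1 := by simp [BGame.bias]
  have hb0 : BGame.bias 2 1 (1 - 1) = 2 := by simp [BGame.bias]
  obtain ⟨σ, h1, h2⟩ := BGame.exists_strategy E 2 1 1 (by norm_num) (by rw [hb1])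
    (fun M B => Phi F S g B M ≤ (F.card : ℝ) * g 2 + M.card * (K * e))
    (fun M B => ∀ i ∈ F, ¬ S i ⊆ B)
    (fun h => absurd h (by norm_num))
    (by
      intro _ b hb hbc
      simp only [Finset.card_empty, Nat.cast_zero, zero_mul, add_zero]
      unfold Phi
      have hbc2 : b.card ≤ 2 := by rw [hbc]; exact min_le_left _ _
      calc ∑ i ∈ F.filter (fun i => Disjoint (S i) ∅), g (S i ∩ b).card ≤
          ∑ i ∈ F.filter (fun i => Disjoint (S i) ∅), g 2 := by
            apply Finset.sum_le_sum
            intro i _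
            exact hgm ((Finset.card_le_card Finset.inter_subset_right).trans hbc2)
        _ = ((F.filter (fun i => Disjoint (S i) ∅)).card : ℝ) * g 2 := by
            rw [Finset.sum_const, nsmul_eq_mul]
        _ ≤ (F.card : ℝ) * g 2 := by
            apply mul_le_mul_of_nonneg_right _ (hg 2)
            exact_mod_cast Finset.card_filter_le _ _)
    (by
      intro M B hM hB hMB hG hne
      obtain ⟨b, hb, hbmax⟩ := Finset.exists_max_image (E \ (M ∪ B))
        (fun z => star F S g B M z) hne
      refine ⟨{b}, Finset.singleton_subset_iff.2 hb, ?_, ?_⟩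
      · rw [hb1, Finset.card_singleton]
        have := Finset.card_pos.2 hne
        omega
      · intro b' hb' hbc
        rw [hb0] at hbc
        have hb2 : b'.card ≤ 2 := by rw [hbc]; exact min_le_left _ _
        have hd : Disjoint b' B := by
          rw [Finset.disjoint_left]
          intro z hz hz'
          have := hb' hz
          simp only [mem_sdiff, mem_union, not_or] at this
          exact this.2.1.2 hz'
        have hmax : ∀ z ∈ b', star F S g B M z ≤ star F S g B M b := by
          intro z hz
          apply hbmax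
          have := hb' hz
          simp only [mem_sdiff, mem_union, not_or] at this ⊢
          exact ⟨this.1, this.2.1⟩
        have hst := step F S g e K hg he H1 H2 hK hcod B M b b' hb2 hd hmax
        have hbM : b ∉ M := by
          simp only [mem_sdiff, mem_union, not_or] at hb
          exact hb.2.1
        have e1 : M ∪ {b} = insert b M := by
          rw [Finset.union_comm]; rfl
        show Phi F S g (B ∪ b') (M ∪ {b}) ≤ (F.card : ℝ) * g 2 + ((M ∪ {b}).card : ℝ) * (K * e)
        rw [e1, Finset.card_insert_of_notMem hbM]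
        push_cast
        have hG' : Phi F S g B M ≤ (F.card : ℝ) * g 2 + M.card * (K * e) := hG
        linarith)
    (by
      intro M B hM hB hMB hG _ i hi hsub
      have hG' : Phi F S g B M ≤ (F.card : ℝ) * g 2 + M.card * (K * e) := hG
      have hdis : Disjoint (S i) M := (hMB.symm).mono_left hsub
      have h3 : g (S i ∩ B).card ≤ Phi F S g B M := by
        unfold Phi
        exact Finset.single_le_sum (f := fun i => g (S i ∩ B).card) (fun j _ => hg _)
          (Finset.mem_filter.2 ⟨hi, hdis⟩)
      rw [Finset.inter_eq_left.2 hsub] at h3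
      have h4 : g n ≤ g (S i).card := hgm (hn i hi)
      have h5 : (M.card : ℝ) * (K * e) ≤ E.card * (K * e) := by
        apply mul_le_mul_of_nonneg_right _ (mul_nonneg hK he)
        exact_mod_cast Finset.card_le_card hM
      linarith)
  exact ⟨σ, h1, h2⟩

end Pool.Agent.W574.ML
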