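import Mathlib

/-!
Aligned square lattices: counting.
-/

set_option autoImplicit false
set_option linter.unusedSectionVars false
set_option linter.unusedVariables false

namespace Pool.Agent.W574.ML

open Finset

/-- the points of the aligned square lattice with corner `p.1` and step `p.2` -/
noncomputable def Sq (q : ℕ) (p : (ℤ × ℤ) × ℤ) : Finset (ℤ × ℤ) :=
  (range q ×ˢ range q).image (fun ij : ℕ × ℕ => (p.1.1 + ij.1 * p.2, p.1.2 + ij.2 * p.2))

/-- the index set -/
noncomputable def Fq (N : ℕ) : Finset ((ℤ × ℤ) × ℤ) :=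
  (Icc (1 : ℤ) N ×ˢ Icc (1 : ℤ) N) ×ˢ Icc (1 : ℤ) N

lemma card_Fq (N : ℕ) : (Fq N).card = N ^ 3 := by
  unfold Fq
  rw [card_product, card_product, Int.card_Icc]
  simp
  ring

lemma card_Sq (N q : ℕ) (p : (ℤ × ℤ) × ℤ) (hp : p ∈ Fq N) : (Sq q p).card = q ^ 2 := by
  unfold Sq
  rw [card_image_of_injOn, card_product, card_range]
  · ring
  · intro a _ b _ hab
    have hd : 1 ≤ p.2 := by
      simp only [Fq, mem_product, mem_Icc] at hp
      exact hp.2.1
    simp only [Prod.mk.injEq] at hab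
    have h1 : (a.1 : ℤ) * p.2 = b.1 * p.2 := by linarith [hab.1]
    have h2 : (a.2 : ℤ) * p.2 = b.2 * p.2 := by linarith [hab.2]
    have h1' := mul_right_cancel₀ (by omega : p.2 ≠ 0) h1
    have h2' := mul_right_cancel₀ (by omega : p.2 ≠ 0) h2
    exact Prod.ext (by exact_mod_cast h1') (by exact_mod_cast h2')

lemma codeg (N q : ℕ) (x y : ℤ × ℤ) (hxy : x ≠ y) :
    ((Fq N).filter (fun p => x ∈ Sq q p ∧ y ∈ Sq q p)).card ≤ q ^ 4 := by
  classical
  have hex : ∀ p ∈ (Fq N).filter (fun p => x ∈ Sq q p ∧ y ∈ Sq q p),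
      ∃ c : (ℕ × ℕ) × (ℕ × ℕ), c ∈ (range q ×ˢ range q) ×ˢ (range q ×ˢ range q) ∧
        x = (p.1.1 + c.1.1 * p.2, p.1.2 + c.1.2 * p.2) ∧
        y = (p.1.1 + c.2.1 * p.2, p.1.2 + c.2.2 * p.2) := by
    intro p hp
    obtain ⟨_, hx, hy⟩ := mem_filter.1 hp
    unfold Sq at hx hy
    obtain ⟨a, ha, hax⟩ := mem_image.1 hx
    obtain ⟨b, hb, hby⟩ := mem_image.1 hy
    exact ⟨(a, b), mem_product.2 ⟨ha, hb⟩, hax.symm, hby.symm⟩
  choose! f hf using hex
  have hcard : ((range q ×ˢ range q) ×ˢ (range q ×ˢ range q)).card = q ^ 4 := by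
    rw [card_product, card_product, card_range]
    ring
  rw [← hcard]
  apply card_le_card_of_injOn f
  · intro p hp
    exact (hf p hp).1
  · intro p hp p' hp' hfe
    obtain ⟨_, hx, hy⟩ := hf p hp
    obtain ⟨_, hx', hy'⟩ := hf p' hp'
    rw [← hfe] at hx' hy'
    generalize f p = c at hx hy hx' hy'
    obtain ⟨⟨i, j⟩, ⟨k, l⟩⟩ := c
    obtain ⟨⟨a1, a2⟩, d⟩ := p
    obtain ⟨⟨b1, b2⟩, e⟩ := p'
    obtain ⟨x1, x2⟩ := x
    obtain ⟨y1, y2⟩ := y
    simp only [Prod.mk.injEq] at hx hy hx' hy'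
    have hne : x1 ≠ y1 ∨ x2 ≠ y2 := by
      by_contra hcon
      push Not at hcon
      exact hxy (Prod.ext hcon.1 hcon.2)
    have hde : d = e := by
      rcases hne with h | h
      · have h1 : ((i : ℤ) - k) * d = ((i : ℤ) - k) * e := by
          have e1 : x1 - y1 = ((i : ℤ) - k) * d := by rw [hx.1, hy.1]; ring
          have e2 : x1 - y1 = ((i : ℤ) - k) * e := by rw [hx'.1, hy'.1]; ring
          rw [← e1, ← e2]
        apply mul_left_cancel₀ _ h1
        intro h0
        apply h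
        have e1 : x1 - y1 = ((i : ℤ) - k) * d := by rw [hx.1, hy.1]; ring
        rw [h0] at e1
        linarith
      · have h1 : ((j : ℤ) - l) * d = ((j : ℤ) - l) * e := by
          have e1 : x2 - y2 = ((j : ℤ) - l) * d := by rw [hx.2, hy.2]; ring
          have e2 : x2 - y2 = ((j : ℤ) - l) * e := by rw [hx'.2, hy'.2]; ring
          rw [← e1, ← e2]
        apply mul_left_cancel₀ _ h1
        intro h0
        apply h
        have e1 : x2 - y2 = ((j : ℤ) - l) * d := by rw [hx.2, hy.2]; ring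
        rw [h0] at e1
        linarith
    subst hde
    have h1 : a1 = b1 := by linarith [hx.1, hx'.1]
    have h2 : a2 = b2 := by linarith [hx.2, hx'.2]
    rw [h1, h2]

/-- the weight function -/
noncomputable def g (J : ℕ) (j : ℕ) : ℝ := (3 / 2) ^ (min j J) * (Real.sqrt 2) ^ (j - J)

lemma g_pos (J j : ℕ) : 0 < g J j := by
  unfold g
  positivity

lemma sqrt2_gt : 1 < Real.sqrt 2 := by
  rw [Real.lt_sqrt (by norm_num)]
  norm_num

lemma sqrt2_lt : Real.sqrt 2 < 3 / 2 := by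
  rw [Real.sqrt_lt' (by norm_num)]
  norm_num

lemma g_low (J j : ℕ) (h : j ≤ J) : g J j = (3 / 2) ^ j := by
  unfold g
  rw [min_eq_left h, Nat.sub_eq_zero_of_le h]
  simp

lemma g_high (J t : ℕ) : g J (J + t) = (3 / 2) ^ J * (Real.sqrt 2) ^ t := by
  unfold g
  rw [min_eq_right (by omega), Nat.add_sub_cancel_left]

lemma g_succ_low (J j : ℕ) (h : j < J) : g J (j + 1) = 3 / 2 * g J j := by
  rw [g_low J j h.le, g_low J (j + 1) h]
  ring

lemma g_succ_high (J j : ℕ) (h : J ≤ j) : g J (j + 1) = Real.sqrt 2 * g J j := by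
  obtain ⟨t, rfl⟩ := Nat.exists_eq_add_of_le h
  rw [g_high, show J + t + 1 = J + (t + 1) by ring, g_high]
  ring

lemma g_mono (J : ℕ) : Monotone (g J) := by
  apply monotone_nat_of_le_succ
  intro j
  have hp := g_pos J j
  rcases Nat.lt_or_ge j J with h | h
  · rw [g_succ_low J j h]
    linarith
  · rw [g_succ_high J j h]
    nlinarith [sqrt2_gt]

lemma g_one (J j : ℕ) : g J (j + 1) ≤ 3 / 2 * g J j := by
  have hp := g_pos J j
  rcases Nat.lt_or_ge j J with h | h
  · rw [g_succ_low J j h]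
  · rw [g_succ_high J j h]
    nlinarith [sqrt2_lt]

lemma g_two (J j : ℕ) : g J (j + 2) ≤ 2 * g J j + (3 / 2) ^ J / 4 := by
  have hp := g_pos J j
  rcases Nat.lt_or_ge j J with h | h
  · have h1 : g J (j + 2) ≤ 3 / 2 * (3 / 2 * g J j) :=
      (g_one J (j + 1)).trans (mul_le_mul_of_nonneg_left (g_one J j) (by norm_num))
    have h2 : g J j ≤ (3 / 2) ^ J := by
      rw [← g_low J J le_rfl]
      exact g_mono J h.le
    linarith
  · have h1 : g J (j + 2) = 2 * g J j := by
      rw [show j + 2 = (j + 1) + 1 by ring, g_succ_high J (j + 1) (by omega), g_succ_high J j h,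
        ← mul_assoc, Real.mul_self_sqrt (by norm_num)]
    rw [h1]
    have : (0 : ℝ) < (3 / 2) ^ J := by positivity
    linarith

end Pool.Agent.W574.ML
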